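import Pool.Agent.Helper3_PPX.Stmts

/-!
# Squad PPX, module SCA: independent monomials over the field generated by `c`, `x` and
`y = Λ + c θ`
-/

set_option autoImplicit false

universe u

namespace Pool.Agent.PPX.H29

open MvPolynomial

/-- An irreducible polynomial stays irreducible when a variable is added. -/
lemma irreducible_some {k : Type*} [Field k] {σ : Type*} {R : MvPolynomial σ k}
    (hR : Irreducible R) : Irreducible (rename (some : σ → Option σ) R) := by
  have h1 : (optionEquivLeft k σ).toAlgHom.comp (rename (some : σ → Option σ)) =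
      ((Polynomial.CAlgHom : MvPolynomial σ k →ₐ[MvPolynomial σ k]
        Polynomial (MvPolynomial σ k)).restrictScalars k) := by
    apply algHom_ext
    intro i
    simp
  have h2 : optionEquivLeft k σ (rename (some : σ → Option σ) R) = Polynomial.C R := by
    exact DFunLike.congr_fun h1 R
  rw [irreducible_iff_prime, ← MulEquiv.prime_iff (optionEquivLeft k σ).toRingEquiv.toMulEquiv]
  have h3 : (optionEquivLeft k σ).toRingEquiv.toMulEquiv (rename (some : σ → Option σ) R) =
      Polynomial.C R := h2
  rw [h3, Polynomial.prime_C_iff]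
  exact irreducible_iff_prime.mp hR

/-- The degree of a substituted polynomial. -/
lemma degreeOf_aeval_le {k : Type*} [Field k] {σ τ : Type*} [Fintype σ] (g : σ → MvPolynomial τ k)
    (t : τ) (n : ℕ) (R : MvPolynomial σ k)
    (h : ∀ s ∈ R.support, ∑ v, s v * degreeOf t (g v) ≤ n) : degreeOf t (aeval g R) ≤ n := by
  classical
  rw [aeval_def, eval₂_eq']
  refine (degreeOf_sum_le _ _ _).trans (Finset.sup_le ?_)
  intro s hs
  refine (degreeOf_mul_le _ _ _).trans ?_
  rw [algebraMap_eq, degreeOf_C, zero_add]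
  refine (degreeOf_prod_le _ _ _).trans ((Finset.sum_le_sum ?_).trans (h s hs))
  intro v _
  exact degreeOf_pow_le _ _ _

/-- Common denominators. -/
lemma exists_common_denom {k : Type*} [Field k] {E : Type*} [Field E] [Algebra k E] {ι κ : Type*}
    [Fintype κ] (a : ι → E) (α : κ → E)
    (hα : ∀ i, α i ∈ IntermediateField.adjoin k (Set.range a)) :
    ∃ (d : E) (P : κ → MvPolynomial ι k), d ≠ 0 ∧ ∀ i, d * α i = aeval a (P i) := by
  classical
  have h1 : ∀ i, ∃ r s : MvPolynomial ι k, aeval a s ≠ 0 ∧ aeval a s * α i = aeval a r := by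
    intro i
    obtain ⟨r, s, hrs⟩ := (IntermediateField.mem_adjoin_range_iff k a (α i)).mp (hα i)
    by_cases hs : aeval a s = 0
    · refine ⟨0, 1, by simp, ?_⟩
      rw [hrs, hs]
      simp
    · refine ⟨r, s, hs, ?_⟩
      rw [hrs, mul_div_cancel₀ _ hs]
  choose r s hs hrs using h1
  refine ⟨∏ i, aeval a (s i), fun i => r i * ∏ j ∈ Finset.univ.erase i, s j,
    Finset.prod_ne_zero_iff.mpr fun i _ => hs i, ?_⟩
  intro i
  rw [← Finset.mul_prod_erase Finset.univ _ (Finset.mem_univ i), map_mul, map_prod, ← hrs]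
  ring

/-- The substitution `Λ = y - c θ`. -/
noncomputable def phiHom (k : Type*) [Field k] :
    MvPolynomial (Option (Fin 4)) k →ₐ[k] MvPolynomial (Fin 3 ⊕ Fin 2) k :=
  aeval (fun o => o.elim (X (Sum.inl 0))
    ![X (Sum.inl 1), X (Sum.inr 0), X (Sum.inr 1), X (Sum.inl 2) - X (Sum.inl 0) * X (Sum.inr 1)])

/-- The inverse substitution. -/
noncomputable def psiHom (k : Type*) [Field k] :
    MvPolynomial (Fin 3 ⊕ Fin 2) k →ₐ[k] MvPolynomial (Option (Fin 4)) k :=
  aeval (Sum.elim ![X none, X (some 0), X (some 3) + X none * X (some 2)]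
    ![X (some 1), X (some 2)])

/-- The substitution is an isomorphism. -/
noncomputable def phi (k : Type*) [Field k] :
    MvPolynomial (Option (Fin 4)) k ≃ₐ[k] MvPolynomial (Fin 3 ⊕ Fin 2) k :=
  AlgEquiv.ofAlgHom (phiHom k) (psiHom k)
    (by
      apply algHom_ext
      rintro (i | i)
      · fin_cases i <;> simp [phiHom, psiHom]
      · fin_cases i <;> simp [phiHom, psiHom])
    (by
      apply algHom_ext
      rintro (_ | i)
      · simp [phiHom, psiHom]
      · fin_cases i <;> simp [phiHom, psiHom])

/-- The substituted polynomial. -/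
noncomputable def tld {k : Type*} [Field k] (R : P4 k) : MvPolynomial (Fin 3 ⊕ Fin 2) k :=
  phi k (rename some R)

lemma tld_eq {k : Type*} [Field k] (R : P4 k) : tld R =
    aeval ![X (Sum.inl 1), X (Sum.inr 0), X (Sum.inr 1),
      X (Sum.inl 2) - X (Sum.inl 0) * X (Sum.inr 1)] R := by
  have h : ((phiHom k).comp (rename some) : P4 k →ₐ[k] MvPolynomial (Fin 3 ⊕ Fin 2) k) =
      aeval ![X (Sum.inl 1), X (Sum.inr 0), X (Sum.inr 1),
        X (Sum.inl 2) - X (Sum.inl 0) * X (Sum.inr 1)] := by
    apply algHom_ext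
    intro i
    fin_cases i <;> simp [phiHom]
  exact DFunLike.congr_fun h R

lemma irreducible_tld {k : Type*} [Field k] {R : P4 k} (hR : Irreducible R) :
    Irreducible (tld R) :=
  (MulEquiv.irreducible_iff (phi k).toRingEquiv.toMulEquiv).mpr (irreducible_some hR)

lemma dvd_of_tld {k : Type*} [Field k] {R Q : P4 k} (h : tld R ∣ tld Q) : R ∣ Q := by
  have h1 : rename some R ∣ rename (some : Fin 4 → Option (Fin 4)) Q := by
    have h2 := map_dvd (phi k).symm h
    simpa [tld] using h2
  have h3 := map_dvd (aeval (fun o : Option (Fin 4) => o.elim 0 X) :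
    MvPolynomial (Option (Fin 4)) k →ₐ[k] P4 k) h1
  have h4 : ∀ S : P4 k, (aeval (fun o : Option (Fin 4) => o.elim 0 X) :
      MvPolynomial (Option (Fin 4)) k →ₐ[k] P4 k) (rename some S) = S := by
    intro S
    rw [aeval_rename]
    exact aeval_X_left_apply S
  rwa [h4, h4] at h3

lemma aeval_tld {k : Type*} [Field k] {E : Type*} [Field E] [Algebra k E] (f : Fin 4 → E) (c : E)
    (R : P4 k) :
    aeval (Sum.elim ![c, f 0, f 3 + c * f 2] ![f 1, f 2]) (tld R) = aeval f R := by
  have h : ((aeval (Sum.elim ![c, f 0, f 3 + c * f 2] ![f 1, f 2]) :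
      MvPolynomial (Fin 3 ⊕ Fin 2) k →ₐ[k] E).comp (aeval ![X (Sum.inl 1), X (Sum.inr 0),
        X (Sum.inr 1), X (Sum.inl 2) - X (Sum.inl 0) * X (Sum.inr 1)]) : P4 k →ₐ[k] E) =
      aeval f := by
    apply algHom_ext
    intro i
    fin_cases i <;> simp
  rw [tld_eq]
  exact DFunLike.congr_fun h R

lemma degreeOf_tld {k : Type*} [Field k] {R : P4 k} {e M' : ℕ} (h1 : degreeOf 1 R ≤ e)
    (h2 : degreeOf 2 R ≤ M') (h3 : degreeOf 3 R ≤ M') :
    ∀ j : Fin 2, degreeOf (Sum.inr j) (tld R) ≤ ![e, 2 * M'] j := by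
  intro j
  rw [tld_eq]
  apply degreeOf_aeval_le
  intro s hs
  have e1 := (monomial_le_degreeOf 1 hs).trans h1
  have e2 := (monomial_le_degreeOf 2 hs).trans h2
  have e3 := (monomial_le_degreeOf 3 hs).trans h3
  have hsub : ∀ i : Fin 2, degreeOf (Sum.inr i) (X (Sum.inl 2) - X (Sum.inl 0) * X (Sum.inr 1) :
      MvPolynomial (Fin 3 ⊕ Fin 2) k) ≤ if i = 1 then 1 else 0 := by
    intro i
    refine (degreeOf_sub_le _ _ _).trans (max_le ?_ ?_)
    · rw [degreeOf_X_of_ne (by simp)]
      exact Nat.zero_le _
    · refine (degreeOf_mul_le _ _ _).trans ?_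
      rw [degreeOf_X_of_ne (by simp), degreeOf_X]
      fin_cases i <;> simp
  fin_cases j
  · have h4 := hsub 0
    simp only [Fin.isValue, zero_ne_one, if_false, Nat.le_zero] at h4
    simp only [Fin.sum_univ_four, Fin.isValue, Fin.zero_eta, Matrix.cons_val_zero,
      Matrix.cons_val_one, Matrix.cons_val]
    rw [h4, degreeOf_X_of_ne (by simp), degreeOf_X_self, degreeOf_X_of_ne (by simp)]
    omega
  · have h4 := hsub 1
    simp only [Fin.isValue, if_true] at h4
    simp only [Fin.sum_univ_four, Fin.isValue, Fin.mk_one, Matrix.cons_val_zero,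
      Matrix.cons_val_one, Matrix.cons_val]
    rw [degreeOf_X_of_ne (by simp), degreeOf_X_of_ne (by simp), degreeOf_X_self]
    have h5 := Nat.mul_le_mul_left (s 3) h4
    omega

/-- Linear algebra: a finite spanning family contains as many independent elements as there are
in a given independent family of its span. -/
lemma exists_subfamily {K E : Type*} [Field K] [Field E] [Algebra K E] {ι : Type} [Finite ι]
    (w : ι → E) (n : ℕ) (x : Fin n → E) (hx : LinearIndependent K x)
    (h : ∀ i, x i ∈ Submodule.span K (Set.range w)) :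
    ∃ φ : Fin n → ι, Function.Injective φ ∧ LinearIndependent K (fun i => w (φ i)) := by
  classical
  obtain ⟨κ, a, ha, hsp, hli⟩ := exists_linearIndependent' K w
  have : Finite κ := Finite.of_injective a ha
  have := Fintype.ofFinite κ
  have hcard : n ≤ Fintype.card κ := by
    have h1 := linearIndependent_le_span' x hx (Set.range (w ∘ a)) (by
      rintro _ ⟨i, rfl⟩
      rw [hsp]
      exact h i)
    have h2 : Fintype.card (Set.range (w ∘ a)) ≤ Fintype.card κ :=
      Fintype.card_le_of_surjective (Set.rangeFactorization (w ∘ a))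
        Set.rangeFactorization_surjective
    have h3 : n ≤ Fintype.card (Set.range (w ∘ a)) := by
      rw [Cardinal.mk_fintype, Fintype.card_fin] at h1
      exact_mod_cast h1
    exact h3.trans h2
  obtain ⟨g⟩ : Nonempty (Fin n ↪ κ) :=
    Function.Embedding.nonempty_of_card_le (by simpa using hcard)
  exact ⟨fun i => a (g i), fun i j hij => g.injective (ha hij), hli.comp g g.injective⟩

/-- SCA. -/
theorem sca (spa : SpaStmt.{u}) : ScaStmt.{u} := by
  classical
  intro k _ _ v _ E _ _ f c hgen e M' R Q C hR hQ hirr hdvd hR1 hQ1 hR2 hR3 hQ2 hQ3 hC hC1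
  set y : E := f 3 + c * f 2 with hy
  set ρ : Fin 3 → Fin 4 := ![2, 0, 3] with hρ
  have hρi : Function.Injective ρ := by
    rw [hρ]
    decide
  have hcomp : (![f 0, f 1, c, y] : Fin 4 → E) ∘ ρ = ![c, f 0, y] := by
    funext i
    fin_cases i <;> simp [hρ]
  have hdeg : ∀ P : MvPolynomial (Fin 3) k, degreeOf 1 (rename ρ P) = 0 := by
    intro P
    have hren : (rename ρ : MvPolynomial (Fin 3) k →ₐ[k] P4 k) = aeval (fun i => X (ρ i)) := by
      apply algHom_ext
      intro i
      rw [rename_X, aeval_X]
    rw [hren]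
    apply Nat.le_zero.mp
    apply degreeOf_aeval_le (fun i => X (ρ i)) 1 0 P
    intro s _
    apply le_of_eq
    apply Finset.sum_eq_zero
    intro i _
    rw [degreeOf_X_of_ne, mul_zero]
    fin_cases i <;> simp [hρ]
  have halg : AlgebraicIndependent k ![c, f 0, y] := by
    rw [algebraicIndependent_iff]
    intro P hP
    by_contra hne
    have h1 : aeval ![f 0, f 1, c, y] (rename ρ P) = 0 := by
      rw [aeval_rename, hcomp, hP]
    have h2 := hC _ ((hgen.van _).mp h1)
    have h3 : rename ρ P ≠ 0 := by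
      intro h
      exact hne (rename_injective ρ hρi (by rw [h, map_zero]))
    obtain ⟨T, hT⟩ := h2
    have hC0 : C ≠ 0 := by
      rintro rfl
      rw [zero_mul] at hT
      exact h3 hT
    have hT0 : T ≠ 0 := by
      rintro rfl
      rw [mul_zero] at hT
      exact h3 hT
    have h4 := hdeg P
    rw [hT, degreeOf_mul_eq hC0 hT0] at h4
    omega
  refine ⟨halg, ?_⟩
  have main : ∀ S : Set E, S = Set.range ![c, f 0, y] →
      ∃ B : Finset (ℕ × ℕ), B.card = degreeOf 1 C ∧ (∀ p ∈ B, p.1 ≤ 2 * e ∧ p.2 ≤ 4 * M') ∧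
      LinearIndependent (IntermediateField.adjoin k S)
        (fun p : B => f 1 ^ p.1.1 * f 2 ^ p.1.2) := by
    rintro S rfl
    -- the powers of `z` are independent
    have hli : LinearIndependent (IntermediateField.adjoin k (Set.range ![c, f 0, y]))
        (fun i : Fin (degreeOf 1 C) => f 1 ^ (i : ℕ)) := by
      rw [Fintype.linearIndependent_iff]
      intro α hα
      obtain ⟨d, P, hd, hP⟩ := exists_common_denom ![c, f 0, y] (fun i => (α i : E))
        (fun i => (α i).2)
      set F : P4 k := ∑ i, rename ρ (P i) * X 1 ^ (i : ℕ) with hF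
      have hF0 : aeval ![f 0, f 1, c, y] F = 0 := by
        rw [hF, map_sum]
        have h1 : ∀ i : Fin (degreeOf 1 C), aeval ![f 0, f 1, c, y]
            (rename ρ (P i) * X 1 ^ (i : ℕ)) = d * (α i • f 1 ^ (i : ℕ)) := by
          intro i
          rw [map_mul, aeval_rename, hcomp, ← hP, map_pow, aeval_X]
          rw [IntermediateField.smul_def, smul_eq_mul]
          simp only [Matrix.cons_val_one, Matrix.cons_val_zero]
          ring
        rw [Finset.sum_congr rfl (fun i _ => h1 i), ← Finset.mul_sum, hα, mul_zero]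
      obtain ⟨T, hT⟩ := hC _ ((hgen.van _).mp hF0)
      have hFz : F = 0 := by
        by_contra hne
        have hC0 : C ≠ 0 := by
          rintro rfl
          rw [zero_mul] at hT
          exact hne hT
        have hT0 : T ≠ 0 := by
          rintro rfl
          rw [mul_zero] at hT
          exact hne hT
        have h4 : degreeOf 1 F < degreeOf 1 C := by
          rw [hF]
          refine lt_of_le_of_lt (degreeOf_sum_le _ _ _) ?_
          rw [Finset.sup_lt_iff (by simpa using hC1)]
          intro i _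
          refine lt_of_le_of_lt (degreeOf_mul_le _ _ _) ?_
          rw [hdeg, zero_add, degreeOf_X_self_pow]
          exact i.2
        rw [hT, degreeOf_mul_eq hC0 hT0] at h4
        omega
      -- the coefficients vanish
      set Ψ : P4 k →ₐ[k] Polynomial (MvPolynomial (Fin 3) k) :=
        aeval ![Polynomial.C (X 1), Polynomial.X, Polynomial.C (X 0), Polynomial.C (X 2)] with hΨ
      have hΨ1 : ∀ P : MvPolynomial (Fin 3) k, Ψ (rename ρ P) = Polynomial.C P := by
        intro P
        have h5 : Ψ.comp (rename ρ) = ((Polynomial.CAlgHom : MvPolynomial (Fin 3) k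
            →ₐ[MvPolynomial (Fin 3) k] Polynomial (MvPolynomial (Fin 3) k)).restrictScalars k) := by
          apply algHom_ext
          intro i
          fin_cases i <;> simp [hΨ, hρ]
        exact DFunLike.congr_fun h5 P
      have hΨ2 : Ψ F = ∑ i : Fin (degreeOf 1 C), Polynomial.C (P i) * Polynomial.X ^ (i : ℕ) := by
        rw [hF, map_sum]
        refine Finset.sum_congr rfl fun i _ => ?_
        rw [map_mul, hΨ1, map_pow]
        congr 2
        rw [hΨ, aeval_X]
        simp
      intro i
      have h6 : P i = 0 := by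
        have h7 : (Ψ F).coeff (i : ℕ) = P i := by
          rw [hΨ2, Polynomial.finsetSum_coeff]
          rw [Finset.sum_eq_single i]
          · simp
          · intro j _ hj
            rw [Polynomial.coeff_C_mul_X_pow, if_neg]
            intro hij
            exact hj (Fin.ext hij.symm)
          · intro h
            exact absurd (Finset.mem_univ i) h
        rw [← h7, hFz, map_zero, Polynomial.coeff_zero]
      have h8 := hP i
      rw [h6, map_zero] at h8
      have h9 : (α i : E) = 0 := by
        rcases mul_eq_zero.mp h8 with h | h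
        · exact absurd h hd
        · exact h
      exact_mod_cast h9
    -- the spanning family
    have hspan := spa (k := k) (E := E) ![c, f 0, y] ![f 1, f 2] halg (tld R) (tld Q)
      (irreducible_tld hirr) (fun h => hdvd (dvd_of_tld h))
      (by rw [aeval_tld]; exact (hgen.ker R).mpr hR) (by rw [aeval_tld]; exact (hgen.ker Q).mpr hQ)
      ![e, 2 * M'] (degreeOf_tld hR1 hR2 hR3) (degreeOf_tld hQ1 hQ2 hQ3)
    set w : Fin (2 * e + 1) × Fin (4 * M' + 1) → E :=
      fun p => f 1 ^ (p.1 : ℕ) * f 2 ^ (p.2 : ℕ) with hw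
    obtain ⟨φ, hφi, hφ⟩ := exists_subfamily w (degreeOf 1 C) _ hli (by
      intro i
      have h1 := hspan (i : ℕ) 0
      simp only [Matrix.cons_val_zero, Matrix.cons_val_one, pow_zero, mul_one] at h1
      refine Submodule.span_mono ?_ h1
      rintro _ ⟨e₀, e₁, h2, h3, rfl⟩
      exact ⟨(⟨e₀, by omega⟩, ⟨e₁, by omega⟩), rfl⟩)
    set ψ : Fin (degreeOf 1 C) → ℕ × ℕ := fun i => (((φ i).1 : ℕ), ((φ i).2 : ℕ)) with hψ
    have hψi : Function.Injective ψ := by
      intro i j hij
      apply hφi
      have h1 := congrArg Prod.fst hij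
      have h2 := congrArg Prod.snd hij
      exact Prod.ext (Fin.ext h1) (Fin.ext h2)
    refine ⟨Finset.univ.map ⟨ψ, hψi⟩, by simp, ?_, ?_⟩
    · intro p hp
      rw [Finset.mem_map] at hp
      obtain ⟨i, _, rfl⟩ := hp
      have h1 := (φ i).1.2
      have h2 := (φ i).2.2
      simp only [Function.Embedding.coeFn_mk, hψ]
      omega
    · have hex : ∀ p : (Finset.univ.map ⟨ψ, hψi⟩ : Finset (ℕ × ℕ)), ∃ i, ψ i = p.1 := by
        rintro ⟨p, hp⟩
        rw [Finset.mem_map] at hp
        obtain ⟨i, _, rfl⟩ := hp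
        exact ⟨i, rfl⟩
      choose g hg using hex
      have hgi : Function.Injective g := by
        intro p q hpq
        apply Subtype.ext
        rw [← hg p, ← hg q, hpq]
      have h1 := hφ.comp g hgi
      have h2 : (fun p : (Finset.univ.map ⟨ψ, hψi⟩ : Finset (ℕ × ℕ)) =>
          f 1 ^ p.1.1 * f 2 ^ p.1.2) = (fun i => w (φ i)) ∘ g := by
        funext p
        have h3 := hg p
        simp only [Function.comp_apply, hw]
        rw [← h3]
      rw [h2]
      exact h1
  apply main
  ext t
  simp only [Set.mem_insert_iff, Set.mem_singleton_iff, Set.mem_range]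
  constructor
  · rintro (h | h | h)
    · exact ⟨0, h.symm⟩
    · exact ⟨1, h.symm⟩
    · exact ⟨2, h.symm⟩
  · rintro ⟨i, hi⟩
    fin_cases i
    · exact Or.inl hi.symm
    · exact Or.inr (Or.inl hi.symm)
    · exact Or.inr (Or.inr hi.symm)

end Pool.Agent.PPX.H29
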